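import Pool.Agent.Run7.h667.PC.Step

/-!
# Reflexivity of `ℓ_p`, and semicontinuity for classes of contractions
-/

set_option autoImplicit false
open Finset Filter Topology TopologicalSpace
open scoped ENNReal
open Pool.Agent.Y280 Run7.h667.TC

namespace Run7.h667.PC

section refl

variable {P : ℝ≥0∞} [hP : Fact (1 ≤ P)]

lemma bidual_sum_le (hP1 : 1 < P) (hPt : P ≠ ∞) (F : StrongDual ℂ (StrongDual ℂ (EP P)))
    (s : Finset ℕ) : ∑ i ∈ s, ‖F (gP P i)‖ ^ P.toReal ≤ ‖F‖ ^ P.toReal := by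
  have hp := toReal_pos' hPt
  have hp1 := one_lt_toReal hP1 hPt
  have hq := Real.HolderConjugate.conjExponent hp1
  set q := P.toReal.conjExponent with hqd
  have hq0 : 0 < q := hq.symm.pos
  have hF := frame_lp hP1 hPt hq
  set S := ∑ i ∈ s, ‖F (gP P i)‖ ^ P.toReal with hS
  have hS0 : 0 ≤ S := sum_nonneg fun _ _ => by positivity
  by_cases hS1 : S = 0
  · rw [hS1]
    positivity
  have hSp : 0 < S := lt_of_le_of_ne hS0 (Ne.symm hS1)
  choose θ hθ hθ' using fun i => exists_phase (F (gP P i))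
  set w : ℕ → ℂ := fun i => θ i * ((‖F (gP P i)‖ ^ (P.toReal - 1) : ℝ) : ℂ) with hw
  have h1 : F (∑ i ∈ s, w i • gP P i) = (S : ℂ) := by
    rw [map_sum, hS, Complex.ofReal_sum]
    refine sum_congr rfl fun i _ => ?_
    rw [map_smul, smul_eq_mul, hw]
    calc θ i * ((‖F (gP P i)‖ ^ (P.toReal - 1) : ℝ) : ℂ) * F (gP P i)
        = ((‖F (gP P i)‖ ^ (P.toReal - 1) : ℝ) : ℂ) * (θ i * F (gP P i)) := by ring
      _ = ((‖F (gP P i)‖ ^ (P.toReal - 1) * ‖F (gP P i)‖ : ℝ) : ℂ) := by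
          rw [hθ', Complex.ofReal_mul]
      _ = _ := by
          congr 1
          by_cases h0 : ‖F (gP P i)‖ = 0
          · rw [h0, mul_zero, Real.zero_rpow hp.ne']
          · have h2 : 0 < ‖F (gP P i)‖ := lt_of_le_of_ne (norm_nonneg _) (Ne.symm h0)
            rw [← Real.rpow_add_one h2.ne', sub_add_cancel]
  have h2 : ‖∑ i ∈ s, w i • gP P i‖ ≤ S ^ (1 / q) := by
    refine (hF.hg s w).trans ?_
    refine Real.rpow_le_rpow (sum_nonneg fun _ _ => by positivity) ?_ (by positivity)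
    refine sum_le_sum fun i _ => ?_
    have h3 : ‖w i‖ ≤ ‖F (gP P i)‖ ^ (P.toReal - 1) := by
      rw [hw]
      beta_reduce
      rw [norm_mul, Complex.norm_real, Real.norm_of_nonneg (by positivity)]
      exact mul_le_of_le_one_left (by positivity) (hθ i)
    refine (Real.rpow_le_rpow (norm_nonneg _) h3 hq0.le).trans (le_of_eq ?_)
    rw [← Real.rpow_mul (norm_nonneg _), hq.sub_one_mul_conj]
  have h3 : S ≤ ‖F‖ * S ^ (1 / q) := by
    have h4 : ‖F (∑ i ∈ s, w i • gP P i)‖ = S := by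
      rw [h1, Complex.norm_real, Real.norm_of_nonneg hS0]
    calc S = ‖F (∑ i ∈ s, w i • gP P i)‖ := h4.symm
      _ ≤ ‖F‖ * ‖∑ i ∈ s, w i • gP P i‖ := F.le_opNorm _
      _ ≤ _ := mul_le_mul_of_nonneg_left h2 (norm_nonneg F)
  have h4 : S ^ (1 / P.toReal) ≤ ‖F‖ := by
    have h5 : S ^ (1 / P.toReal) * S ^ (1 / q) = S := by
      rw [← Real.rpow_add hSp, one_div, one_div, hq.inv_add_inv_eq_one, Real.rpow_one]
    have h6 : 0 < S ^ (1 / q) := by positivity
    refine le_of_mul_le_mul_right ?_ h6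
    rw [h5]
    exact h3
  have h5 := Real.rpow_le_rpow (by positivity) h4 hp.le
  rwa [← Real.rpow_mul hS0, one_div, inv_mul_cancel₀ hp.ne', Real.rpow_one] at h5

/-- **`ℓ_p` is reflexive** for `1 < p < ∞`. -/
theorem refl_EP (hP1 : 1 < P) (hPt : P ≠ ∞) : Refl (EP P) := by
  intro F
  have hp := toReal_pos' hPt
  let x : EP P := ⟨fun i => F (gP P i), memℓp_gen' (C := ‖F‖ ^ P.toReal) fun s =>
    bidual_sum_le hP1 hPt F s⟩
  refine ⟨x, ?_⟩
  ext y
  have h1 := comp_tendsto_of_disjoint (one_lt_toReal hP1 hPt) (QP P) (QP_tendsto hPt)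
    (norm_QP_dis hP1 hPt) y
  have h2 := h1.const_sub y
  rw [sub_zero] at h2
  have e : ∀ n, y - y.comp (QP P n) = ∑ i ∈ range n, y (eP P i) • gP P i := by
    intro n
    ext z
    have e1 : (y - y.comp (QP P n)) z = y ((1 - QP P n) z) := by
      simp [_root_.sub_apply]
    rw [e1, one_sub_QP, ← sum_smul_eP, map_sum, _root_.sum_apply]
    refine sum_congr rfl fun i _ => ?_
    rw [map_smul, _root_.smul_apply, gP_apply, smul_eq_mul, smul_eq_mul, mul_comm]
  have h3 : Tendsto (fun n => F (y - y.comp (QP P n))) atTop (𝓝 (F y)) :=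
    (F.continuous.tendsto _).comp h2
  have h4 : ∀ n, F (y - y.comp (QP P n)) = y ((1 - QP P n) x) := by
    intro n
    rw [e, map_sum, one_sub_QP, ← sum_smul_eP, map_sum]
    refine sum_congr rfl fun i _ => ?_
    rw [map_smul, map_smul, smul_eq_mul, smul_eq_mul, mul_comm]
  have h5 : Tendsto (fun n => y ((1 - QP P n) x)) atTop (𝓝 (y x)) := by
    have h6 := (QP_tendsto hPt x).const_sub x
    rw [sub_zero] at h6
    exact (y.continuous.tendsto _).comp h6
  have h6 : F y = y x := by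
    refine tendsto_nhds_unique h3 ?_
    simp only [h4]
    exact h5
  rw [h6]
  rfl

end refl

section general

variable {E : Type*} [NormedAddCommGroup E] [NormedSpace ℂ E]

lemma nhdS_sotStar (C : Set (E →L[ℂ] E)) :
    @NhdS E _ _ C (sotStar C) (fun w => (w : E →L[ℂ] E)) :=
  fun w O hO hw => sotStar_nhd C w O hO hw

lemma semiS_sotStar [CompleteSpace E] [SeparableSpace E] (hE : Refl E) (C : Set (E →L[ℂ] E))
    (hC : ∀ T ∈ C, ‖T‖ ≤ 1) :
    @SemiS E _ _ C (sotStar C) (fun w => (w : E →L[ℂ] E)) := by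
  intro x y ρ ρ' w hw hρ
  have := separable_dual hE
  set B : Set (E →L[ℂ] E) := {T | ‖T‖ ≤ 1} with hB
  have hcm : @IsCompletelyMetrizableSpace B (sotStar B) := cm_sotStar (fun T hT => hT) ball_closed
  have hfc := fc_of_cm _ hcm
  let ι : C → B := fun v => ⟨v.1, hC _ v.2⟩
  have h1 := @mem_interior_HSO E _ _ B (sotStar B) (fun w => (w : E →L[ℂ] E)) hfc
    (ballS_sotStar B rfl) hE (ι w) x y ρ ρ' hw hρ
  have hι : @Continuous C B (sotStar C) (sotStar B) ι := by
    rw [continuous_induced_rng]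
    exact continuous_induced_dom
  have h2 : w ∈ ι ⁻¹' (@interior B (sotStar B) (HS (fun w : B => (w : E →L[ℂ] E)) x y ρ')) := h1
  have h3 : ι ⁻¹' (@interior B (sotStar B) (HS (fun w : B => (w : E →L[ℂ] E)) x y ρ')) ⊆
      HS (fun w : C => (w : E →L[ℂ] E)) x y ρ' := fun v hv => by
    have h4 : ι v ∈ HS (fun w : B => (w : E →L[ℂ] E)) x y ρ' :=
      @interior_subset B (sotStar B) _ _ hv
    exact h4
  have h4 : @IsOpen C (sotStar C)
      (ι ⁻¹' (@interior B (sotStar B) (HS (fun w : B => (w : E →L[ℂ] E)) x y ρ'))) :=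
    @IsOpen.preimage C B (sotStar C) (sotStar B) ι hι _ (@isOpen_interior B (sotStar B) _)
  exact (@mem_interior C (sotStar C) _ _).2 ⟨_, h3, h4, h2⟩

end general

end Run7.h667.PC
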