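import Pool.Agent.Run7.h667.PC.Mat

/-!
# Density of good finite matrices in the class of regular contractions
-/

set_option autoImplicit false
open Finset Filter Topology TopologicalSpace Polynomial
open scoped ENNReal ComplexOrder
open Pool.Agent.Y280 Run7.h667.TC

namespace Run7.h667.PC

/-- closed convex cones of complex numbers which contain the nonnegative reals -/
structure Cone (S : Set ℂ) : Prop where
  closed : IsClosed S
  add : ∀ z ∈ S, ∀ z' ∈ S, z + z' ∈ S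
  smul : ∀ r : ℝ, 0 ≤ r → ∀ z ∈ S, (r : ℂ) * z ∈ S
  one : (1 : ℂ) ∈ S

lemma Cone.pos {S : Set ℂ} (h : Cone S) (r : ℝ) (hr : 0 ≤ r) : (r : ℂ) ∈ S := by
  have := h.smul r hr 1 h.one
  rwa [mul_one] at this

lemma Cone.zero {S : Set ℂ} (h : Cone S) : (0 : ℂ) ∈ S := by
  have := h.pos 0 le_rfl
  rwa [Complex.ofReal_zero] at this

variable {P : ℝ≥0∞} [hP : Fact (1 ≤ P)]

lemma PV_eq (hPt : P ≠ ∞) (N : ℕ) : PV ℂ hPt N = 1 - QP P N := by
  ext x i
  rw [PV_apply, one_sub_QP_apply]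

lemma op_ent (hPt : P ≠ ∞) (T : EP P →L[ℂ] EP P) (N : ℕ) :
    op (fun i j : Fin N => ent T i j) = PV ℂ hPt N * T * PV ℂ hPt N := by
  ext x i
  have e : ((PV ℂ hPt N * T * PV ℂ hPt N) x : EP P) i =
      (PV ℂ hPt N (T ((PV ℂ hPt N) x)) : EP P) i := rfl
  rw [e, op_apply, PV_apply, PV_eq, T_one_sub]
  by_cases hi : i < N
  · rw [dif_pos hi, if_pos hi, ← Fin.sum_univ_eq_sum_range (fun j => ent T i j * x j) N]
  · rw [dif_neg hi, if_neg hi]

/-- the diagonal matrix with entries `0, 1, …, N - 1` -/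
noncomputable def DD (N : ℕ) : Matrix (Fin N) (Fin N) ℂ :=
  Matrix.diagonal fun i : Fin N => ((i : ℕ) : ℂ)

lemma opM_DD {p : ℝ} (hp : 0 < p) (N : ℕ) : OpM p (DD N) N := by
  intro x
  rw [mul_sum]
  refine sum_le_sum fun i _ => ?_
  have e : ∑ j, DD N i j * x j = ((i : ℕ) : ℂ) * x i := by
    rw [sum_eq_single i]
    · rw [DD, Matrix.diagonal_apply_eq]
    · intro b _ hb
      rw [DD, Matrix.diagonal_apply_ne _ hb.symm, zero_mul]
    · intro h'; exact absurd (mem_univ _) h'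
  rw [e, norm_mul, Real.mul_rpow (norm_nonneg _) (norm_nonneg _)]
  refine mul_le_mul_of_nonneg_right (Real.rpow_le_rpow (norm_nonneg _) ?_ hp.le) (by positivity)
  rw [Complex.norm_natCast]
  exact_mod_cast i.2.le

lemma DD_nonneg (N : ℕ) (i j : Fin N) : ∃ r : ℝ, 0 ≤ r ∧ DD N i j = (r : ℂ) := by
  by_cases h : i = j
  · subst h
    refine ⟨(i : ℕ), Nat.cast_nonneg _, ?_⟩
    rw [DD, Matrix.diagonal_apply_eq]
    simp
  · refine ⟨0, le_rfl, ?_⟩
    rw [DD, Matrix.diagonal_apply_ne _ h, Complex.ofReal_zero]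

lemma sep_DD {N : ℕ} (A : Matrix (Fin N) (Fin N) ℂ) {ε : ℝ} (hε : 0 < ε) :
    ∃ s : ℝ, 0 < s ∧ N * s ≤ ε ∧ ∃ χ : ℂ[X], aeval (A + (s : ℂ) • DD N) χ = 0 ∧ χ.Separable := by
  obtain ⟨s, hs, hs'⟩ := exists_large_sep A (((N : ℝ) + 1) / ε)
  have hs0 : 0 < s := lt_trans (by positivity) hs
  have hsC : (s : ℂ) ≠ 0 := by exact_mod_cast hs0.ne'
  refine ⟨s⁻¹, by positivity, ?_, (DD N + (s : ℂ) • A).charpoly.comp (C (s : ℂ) * X), ?_,
    sep_comp hs' hsC⟩
  · rw [← div_eq_mul_inv, div_le_iff₀ hs0]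
    rw [div_lt_iff₀ hε] at hs
    linarith
  · rw [aeval_comp]
    have e : aeval (A + ((s⁻¹ : ℝ) : ℂ) • DD N) (C (s : ℂ) * X) = DD N + (s : ℂ) • A := by
      rw [map_mul, aeval_X, aeval_C, Algebra.algebraMap_eq_smul_one, smul_mul_assoc, one_mul,
        smul_add, smul_smul]
      rw [Complex.ofReal_inv, mul_inv_cancel₀ hsC, one_smul, add_comm]
    rw [e]
    exact Matrix.aeval_self_charpoly _

/-- the matrix of absolute values of a regular contraction -/
lemma opM_abs (hPt : P ≠ ∞) {T : EP P →L[ℂ] EP P} (hT : RegS P.toReal (ent T)) (N : ℕ) :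
    OpM P.toReal (fun i j : Fin N => ((‖ent T i j‖ : ℝ) : ℂ)) 1 := by
  have hp := toReal_pos' hPt
  intro x
  rw [Real.one_rpow, one_mul]
  refine le_trans (sum_le_sum fun i _ => ?_) (hT.regM N (fun j => ‖x j‖) fun j => norm_nonneg _)
  refine Real.rpow_le_rpow (norm_nonneg _) ((norm_sum_le _ _).trans (le_of_eq ?_)) hp.le
  refine sum_congr rfl fun j _ => ?_
  rw [norm_mul, Complex.norm_real, Real.norm_of_nonneg (norm_nonneg _)]

/-- **Density of good matrices.** -/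
theorem exists_mat (hP1 : 1 < P) (hPt : P ≠ ∞) {S : Set ℂ} (hS : Cone S) {T : EP P →L[ℂ] EP P}
    (hT : T ∈ Cls P S) (X : Finset (EP P)) (Y : Finset (StrongDual ℂ (EP P))) {ε : ℝ}
    (hε : 0 < ε) (N0 : ℕ) :
    ∃ N, N0 ≤ N ∧ ∃ (M G : Matrix (Fin N) (Fin N) ℂ) (r : ℝ), 0 ≤ r ∧ r < 1 ∧
      OpM P.toReal G r ∧ Maj (op (P := P) M) (op G) ∧ (∀ i j, ent (op (P := P) M) i j ∈ S) ∧
      (∀ x ∈ X, ‖op M x - T x‖ < ε) ∧ (∀ y ∈ Y, ‖y.comp (op M) - y.comp T‖ < ε) ∧
      (∀ x ∈ X, ‖PV ℂ hPt N x - x‖ ≤ ε) ∧ (∀ y ∈ Y, ‖y.comp (PV ℂ hPt N) - y‖ ≤ ε) ∧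
      ∃ χ : ℂ[X], aeval M χ = 0 ∧ χ.Separable := by
  classical
  have hp := toReal_pos' hPt
  have hp1 := one_lt_toReal hP1 hPt
  have hT1 : ‖T‖ ≤ 1 := cls_norm hP1 hPt T hT
  set B : ℝ := ∑ x ∈ X, ‖x‖ + ∑ y ∈ Y, ‖y‖ + 1 with hB
  have hsX : 0 ≤ ∑ x ∈ X, ‖x‖ := sum_nonneg fun _ _ => norm_nonneg _
  have hsY : 0 ≤ ∑ y ∈ Y, ‖y‖ := sum_nonneg fun _ _ => norm_nonneg _
  have hBX : ∀ x ∈ X, ‖x‖ ≤ B := fun x hx => by have := le_sum_norm X hx; linarith
  have hBY : ∀ y ∈ Y, ‖y‖ ≤ B := fun y hy => by have := le_sum_norm Y hy; linarith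
  have hB0 : 0 < B := by linarith
  obtain ⟨c, hc0, hc1, hcB⟩ : ∃ c : ℝ, 0 ≤ c ∧ c < 1 ∧ (1 - c) * B ≤ ε / 4 := by
    refine ⟨max 0 (1 - ε / (4 * B)), le_max_left _ _, max_lt one_pos (by
      have : 0 < ε / (4 * B) := by positivity
      linarith), ?_⟩
    have h1 : 1 - max 0 (1 - ε / (4 * B)) ≤ ε / (4 * B) := by
      have := le_max_right 0 (1 - ε / (4 * B))
      linarith
    calc _ ≤ ε / (4 * B) * B := mul_le_mul_of_nonneg_right h1 hB0.le
      _ = ε / 4 := by field_simp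
  set ε2 : ℝ := ε / 32 with hε2
  have hε20 : 0 < ε2 := by positivity
  -- the size of the matrix
  have hX : ∀ᶠ k in atTop, ∀ x ∈ X ∪ X.image T, ‖QV ℂ hPt k x‖ ≤ ε2 := by
    rw [Filter.eventually_all_finset]
    intro x _
    have := (tendsto_zero_iff_norm_tendsto_zero.1 (QV_tendsto hPt x)).eventually
      (gt_mem_nhds hε20)
    exact this.mono fun _ h => h.le
  have hY : ∀ᶠ k in atTop, ∀ y ∈ Y ∪ Y.image fun y => y.comp T, ‖y.comp (QV ℂ hPt k)‖ ≤ ε2 := by
    rw [Filter.eventually_all_finset]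
    intro y _
    have := (tendsto_zero_iff_norm_tendsto_zero.1 (comp_QV_tendsto hP1 hPt y)).eventually
      (gt_mem_nhds hε20)
    exact this.mono fun _ h => h.le
  obtain ⟨N, ⟨hN1, hN2⟩, hN0⟩ := ((hX.and hY).and (eventually_ge_atTop N0)).exists
  have hPx : ∀ x ∈ X ∪ X.image T, ‖PV ℂ hPt N x - x‖ ≤ ε2 := by
    intro x hx
    rw [PV_sub, norm_neg]
    exact hN1 x hx
  have hPy : ∀ y ∈ Y ∪ Y.image fun y => y.comp T, ‖y.comp (PV ℂ hPt N) - y‖ ≤ ε2 := by
    intro y hy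
    have e : y.comp (PV ℂ hPt N) - y = - y.comp (QV ℂ hPt N) := by
      ext x
      rw [_root_.sub_apply, ContinuousLinearMap.comp_apply, ← map_sub, PV_sub, map_neg]
      rfl
    rw [e, norm_neg]
    exact hN2 y hy
  -- the matrices
  set TN : Matrix (Fin N) (Fin N) ℂ := fun i j => ent T i j with hTN
  set aT : Matrix (Fin N) (Fin N) ℂ := fun i j => ((‖ent T i j‖ : ℝ) : ℂ) with haT
  set η : ℝ := min ((1 - c) / 2) (ε / (4 * B)) with hη
  have hη0 : 0 < η := lt_min (by linarith) (by positivity)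
  obtain ⟨s, hs0, hsN, χ, hχ, hχs⟩ := sep_DD ((c : ℂ) • TN) hη0
  have hsN1 : N * s ≤ (1 - c) / 2 := hsN.trans (min_le_left _ _)
  have hsN2 : N * s * B ≤ ε / 4 := by
    calc _ ≤ ε / (4 * B) * B := mul_le_mul_of_nonneg_right (hsN.trans (min_le_right _ _)) hB0.le
      _ = ε / 4 := by field_simp
  have hDn : OpM P.toReal ((s : ℂ) • DD N) (N * s) := by
    have := (opM_DD hp N).smul (Nat.cast_nonneg N) (s : ℂ)
    rwa [Complex.norm_real, Real.norm_of_nonneg hs0.le, mul_comm] at this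
  have haTn : OpM P.toReal ((c : ℂ) • aT) c := by
    have := (opM_abs hPt hT.1 N).smul zero_le_one (c : ℂ)
    rwa [Complex.norm_real, Real.norm_of_nonneg hc0, mul_one] at this
  have hDD : ‖op (P := P) ((s : ℂ) • DD N)‖ ≤ N * s := norm_op hPt (by positivity) hDn
  have hP1' : ‖PV ℂ (P := P) hPt N‖ ≤ 1 := reidx_norm _ _ _ _
  have h11 : ‖(1 : EP P →L[ℂ] EP P)‖ ≤ 1 := ContinuousLinearMap.norm_id_le
  have hsplit : op (P := P) ((c : ℂ) • TN + (s : ℂ) • DD N) =
      (c : ℂ) • (PV ℂ hPt N * 1 * T * 1 * PV ℂ hPt N) + op ((s : ℂ) • DD N) := by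
    rw [op_add, op_smul, op_ent hPt, mul_one, mul_one]
  refine ⟨N, hN0, (c : ℂ) • TN + (s : ℂ) • DD N, (c : ℂ) • aT + (s : ℂ) • DD N, c + N * s,
    by positivity, by linarith, OpM.add hp1.le hc0 (by positivity) haTn hDn, ?_, ?_, ?_, ?_,
    fun x hx => (hPx x (mem_union_left _ hx)).trans (by linarith),
    fun y hy => (hPy y (mem_union_left _ hy)).trans (by linarith), χ, hχ, hχs⟩
  · intro i j
    rw [ent_op, ent_op]
    by_cases h : i < N ∧ j < N
    · rw [dif_pos h, dif_pos h]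
      obtain ⟨d, hd0, hd⟩ := DD_nonneg N ⟨i, h.1⟩ ⟨j, h.2⟩
      rw [Matrix.add_apply, Matrix.add_apply, Matrix.smul_apply, Matrix.smul_apply,
        Matrix.smul_apply, hd, smul_eq_mul, smul_eq_mul, smul_eq_mul]
      have e : (c : ℂ) * aT ⟨i, h.1⟩ ⟨j, h.2⟩ + (s : ℂ) * (d : ℂ) =
          ((c * ‖ent T i j‖ + s * d : ℝ) : ℂ) := by
        rw [haT]
        push_cast
        rfl
      rw [e, Complex.real_le_real]
      refine (norm_add_le _ _).trans (le_of_eq ?_)
      rw [norm_mul, norm_mul, Complex.norm_real, Complex.norm_real, Complex.norm_real,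
        Real.norm_of_nonneg hc0, Real.norm_of_nonneg hs0.le, Real.norm_of_nonneg hd0]
    · rw [dif_neg h, dif_neg h, norm_zero, Complex.ofReal_zero]
  · intro i j
    rw [ent_op]
    by_cases h : i < N ∧ j < N
    · rw [dif_pos h]
      obtain ⟨d, hd0, hd⟩ := DD_nonneg N ⟨i, h.1⟩ ⟨j, h.2⟩
      rw [Matrix.add_apply, Matrix.smul_apply, Matrix.smul_apply, hd, smul_eq_mul, smul_eq_mul]
      refine hS.add _ (hS.smul c hc0 _ (hT.2 i j)) _ ?_
      rw [← Complex.ofReal_mul]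
      exact hS.pos _ (by positivity)
    · rw [dif_neg h]
      exact hS.zero
  · intro x hx
    have h1 := near_comp hT1 hP1' h11 hε20.le (hPx x (mem_union_left _ hx))
      (by simpa using hε20.le) (hPx _ (mem_union_right _ (mem_image_of_mem _ hx)))
      (by simpa using hε20.le) hc0 hc1.le
    rw [hsplit]
    have e : ((c : ℂ) • (PV ℂ hPt N * 1 * T * 1 * PV ℂ hPt N) + op ((s : ℂ) • DD N) :
        EP P →L[ℂ] EP P) x - T x =
        (((c : ℂ) • (PV ℂ hPt N * 1 * T * 1 * PV ℂ hPt N)) x - T x) + op ((s : ℂ) • DD N) x := by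
      rw [_root_.add_apply]; abel
    rw [e]
    have h2 : ‖op ((s : ℂ) • DD N) x‖ ≤ N * s * B := ((op ((s : ℂ) • DD N)).le_opNorm x).trans
      (mul_le_mul hDD (hBX x hx) (norm_nonneg _) (by positivity))
    have h3 : (1 - c) * ‖x‖ ≤ (1 - c) * B := mul_le_mul_of_nonneg_left (hBX x hx) (by linarith)
    refine (norm_add_le _ _).trans_lt ?_
    linarith
  · intro y hy
    have h1 := near_comp_dual hT1 hP1' h11 hε20.le (hPy y (mem_union_left _ hy))
      (by
        have e : y.comp (1 : EP P →L[ℂ] EP P) = y := by ext; rfl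
        rw [e, sub_self, norm_zero]; exact hε20.le)
      (hPy _ (mem_union_right _ (mem_image_of_mem (fun y : StrongDual ℂ (EP P) => y.comp T) hy)))
      (by
        have e : (y.comp T).comp (1 : EP P →L[ℂ] EP P) = y.comp T := by ext; rfl
        rw [e, sub_self, norm_zero]; exact hε20.le) hc0 hc1.le
    rw [hsplit]
    have e : y.comp ((c : ℂ) • (PV ℂ hPt N * 1 * T * 1 * PV ℂ hPt N) + op ((s : ℂ) • DD N)) -
        y.comp T = (y.comp ((c : ℂ) • (PV ℂ hPt N * 1 * T * 1 * PV ℂ hPt N)) - y.comp T) +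
          y.comp (op ((s : ℂ) • DD N)) := by
      rw [ContinuousLinearMap.comp_add]; abel
    rw [e]
    have h2 : ‖y.comp (op ((s : ℂ) • DD N))‖ ≤ B * (N * s) :=
      (ContinuousLinearMap.opNorm_comp_le _ _).trans
        (mul_le_mul (hBY y hy) hDD (norm_nonneg _) hB0.le)
    have h3 : (1 - c) * ‖y‖ ≤ (1 - c) * B := mul_le_mul_of_nonneg_left (hBY y hy) (by linarith)
    refine (norm_add_le _ _).trans_lt ?_
    linarith

/-- **The density hypothesis for regular contractions with entries in a cone.** -/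
theorem densS_cls (hP1 : 1 < P) (hPt : P ≠ ∞) {S : Set ℂ} (hS : Cone S) :
    @DensS (EP P) _ _ (Cls P S) (sotStar (Cls P S)) P.toReal (fun w => (w : EP P →L[ℂ] EP P)) := by
  classical
  have hp := toReal_pos' hPt
  intro O w0 hO hw0 x y ε hε
  obtain ⟨X, Y, ε1, hε1, hnear⟩ := nhdS_sotStar (Cls P S) w0 O hO hw0
  obtain ⟨N, -, M, G, r, hr0, hr1, hG, hMaj, hMS, hX, hY, hPx, hPy, χ, hχ, hχs⟩ :=
    exists_mat hP1 hPt hS w0.2 (insert x X) (insert y Y) (lt_min hε hε1) 0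
  have hGn : ‖op (P := P) G‖ ≤ r := norm_op hPt hr0 hG
  have hMreg : RegS P.toReal (ent (op (P := P) M)) := hMaj.regS hP1 hPt (hGn.trans hr1.le)
  have hMn : ‖op (P := P) M‖ < 1 := by
    rcases hr0.eq_or_lt with h0 | h0
    · -- all entries vanish
      have hG0 : op (P := P) G = 0 := by
        rw [← norm_le_zero_iff]
        rw [← h0] at hGn
        exact hGn
      have hent : ∀ i j, ent (op (P := P) M) i j = 0 := by
        intro i j
        have h1 := hMaj.norm_le i j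
        rw [hG0] at h1
        have h2 : ent (0 : EP P →L[ℂ] EP P) i j = 0 := rfl
        rw [h2, norm_zero, norm_le_zero_iff] at h1
        exact h1
      have hM0 : op (P := P) M = 0 := by
        ext z i
        rw [op_apply]
        split_ifs with hi
        · refine sum_eq_zero fun j _ => ?_
          have h1 := hent i j
          rw [ent_op, dif_pos ⟨hi, j.2⟩] at h1
          rw [h1, zero_mul]
        · rfl
      rw [hM0, norm_zero]
      exact one_pos
    · -- scaling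
      have h1 : Maj (((r⁻¹ : ℝ) : ℂ) • op (P := P) M) (((r⁻¹ : ℝ) : ℂ) • op G) := by
        intro i j
        rw [ent_smul, ent_smul, norm_mul, Complex.norm_real, Real.norm_of_nonneg (by positivity),
          Complex.ofReal_mul]
        refine mul_le_mul_of_nonneg_left (hMaj i j) ?_
        exact_mod_cast (by positivity : (0 : ℝ) ≤ r⁻¹)
      have h2 : ‖((r⁻¹ : ℝ) : ℂ) • op (P := P) G‖ ≤ 1 := by
        rw [norm_smul, Complex.norm_real, Real.norm_of_nonneg (by positivity), inv_mul_le_iff₀ h0,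
          mul_one]
        exact hGn
      have h3 := norm_le_one_of_RegS hP1 hPt (h1.regS hP1 hPt h2)
      rw [norm_smul, Complex.norm_real, Real.norm_of_nonneg (by positivity), inv_mul_le_iff₀ h0,
        mul_one] at h3
      exact h3.trans_lt hr1
  refine ⟨⟨op M, hMreg, hMS⟩, ?_, PV ℂ hPt N, (cop_LV hPt N 0 0).PP, reidx_norm _ _ _ _,
    (hPx x (mem_insert_self _ _)).trans (min_le_left _ _),
    (hPy y (mem_insert_self _ _)).trans (min_le_left _ _), ?_, ?_, hMn, exists_poly hPt hχ hχs,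
    1 - r, by linarith, by linarith, ?_⟩
  · exact hnear _ (fun z hz => (hX z (mem_insert_of_mem hz)).trans_le (min_le_right _ _))
      fun z hz => (hY z (mem_insert_of_mem hz)).trans_le (min_le_right _ _)
  · show PV ℂ hPt N * op M = op M
    rw [← op_one hPt, op_mul hPt, one_mul]
  · show op M * PV ℂ hPt N = op M
    rw [← op_one hPt, op_mul hPt, mul_one]
  · intro m δ hm hδ0 hδw X' Y' ε' hε'
    have hX : ∀ᶠ k in atTop, ∀ x ∈ X', ‖QV ℂ hPt k x‖ ≤ ε' := by
      rw [Filter.eventually_all_finset]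
      intro x _
      have := (tendsto_zero_iff_norm_tendsto_zero.1 (QV_tendsto hPt x)).eventually
        (gt_mem_nhds hε')
      exact this.mono fun _ h => h.le
    have hY : ∀ᶠ k in atTop, ∀ y ∈ Y', ‖y.comp (QV ℂ hPt k)‖ ≤ ε' := by
      rw [Filter.eventually_all_finset]
      intro y _
      have := (tendsto_zero_iff_norm_tendsto_zero.1 (comp_QV_tendsto hP1 hPt y)).eventually
        (gt_mem_nhds hε')
      exact this.mono fun _ h => h.le
    obtain ⟨k, hk1, hk2⟩ := (hX.and hY).exists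
    have hCop := cop_LV (Y := ℂ) (P := P) hPt N k (m + 2)
    have hw : 0 ≤ 1 - r := by linarith
    refine ⟨UV ℂ hPt N k, VV ℂ hPt N k, hCop, fun i _ hi => ⟨?_, ?_⟩,
      ⟨bigO (op M) (UV ℂ hPt N k) (VV ℂ hPt N k) m δ (1 - r), ?_, ?_⟩, rfl⟩
    · intro x hx
      rw [VV_QV hPt N k i hi]
      exact (norm_le_of_norm_one (reidx_norm _ _ _ _) _).trans (hk1 x hx)
    · intro y hy
      rw [UV_QV hPt N k i hi, ← ContinuousLinearMap.comp_assoc]
      refine (ContinuousLinearMap.opNorm_comp_le _ _).trans ?_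
      exact (mul_le_of_le_one_right (norm_nonneg _) (reidx_norm _ _ _ _)).trans (hk2 y hy)
    · refine (hMaj.bigO hPt N k m hδ0.le hw).regS hP1 hPt ?_
      refine (norm_bigO hCop hp hr0 hGn hδ0.le hδw).trans ?_
      linarith
    · exact ent_bigO_mem hPt hS.zero hS.add hS.pos hMS N k m hδ0.le hw

end Run7.h667.PC
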