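import Pool.Agent.Run7.h667.PC.Points
import Pool.Agent.Y280.HFin

/-!
# Typical positive and typical regular contractions of `ℓ_p`: assembly
-/

set_option autoImplicit false
open Finset Filter Topology TopologicalSpace
open scoped ENNReal ComplexOrder
open Pool.Agent.Y280 Run7.h667.TC

namespace Run7.h667.PC

variable {P : ℝ≥0∞} [hP : Fact (1 ≤ P)]

lemma cone_nonneg : Cone {z : ℂ | 0 ≤ z} := by
  refine ⟨?_, fun z hz z' hz' => ?_, fun r hr z hz => ?_, ?_⟩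
  · exact isClosed_le continuous_const continuous_id
  · have h1 : 0 ≤ z := hz
    have h2 : 0 ≤ z' := hz'
    show 0 ≤ z + z'
    exact add_nonneg h1 h2
  · have h1 : 0 ≤ z := hz
    have h2 : (0 : ℂ) ≤ (r : ℂ) := by exact_mod_cast hr
    show 0 ≤ (r : ℂ) * z
    exact mul_nonneg h2 h1
  · show (0 : ℂ) ≤ 1
    exact zero_le_one

theorem typ_pos_reg (hP1 : 1 < P) (hPt : P ≠ ∞) (C : Set (EP P →L[ℂ] EP P))
    (hC : C = PosC P ∨ ∃ S : Set ℂ, Cone S ∧ C = Cls P S) (t : TopologicalSpace C)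
    (ht : t = sotStar C ∨ t = sot C) :
    C.Nonempty ∧ @IsCompletelyMetrizableSpace C t ∧ @BaireSpace C t ∧
      {T : C | DenselyHyperinvariant (T : EP P →L[ℂ] EP P)} ∈ @residual C t := by
  obtain ⟨S, hS, rfl⟩ : ∃ S : Set ℂ, Cone S ∧ C = Cls P S := by
    rcases hC with rfl | h
    · exact ⟨_, cone_nonneg, posC_eq hP1 hPt⟩
    · exact h
  exact typ_reg hP1 hPt hS t ht

section coordinates

variable {E : Type} [NormedAddCommGroup E] [NormedSpace ℂ E]

/-- positive contractions, in coordinates -/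
def PosE (c : E →ₗ[ℂ] (ℕ → ℂ)) : Set (E →L[ℂ] E) :=
  {T | ‖T‖ ≤ 1 ∧ ∀ x, (∀ i, 0 ≤ c x i) → ∀ i, 0 ≤ c (T x) i}

/-- regular contractions, in coordinates -/
def RegE (p : ℝ) (c : E →ₗ[ℂ] (ℕ → ℂ)) (b : ℕ → E) (S : Set ℂ) : Set (E →L[ℂ] E) :=
  {T | (∀ (N : ℕ) (x : ℕ → ℝ), (∀ j, 0 ≤ x j) →
      ∑ i ∈ range N, (∑ j ∈ range N, ‖c (T (b j)) i‖ * x j) ^ p ≤ ∑ j ∈ range N, x j ^ p) ∧
      ∀ i j, c (T (b j)) i ∈ S}

theorem typ_coord (p : ℝ) (hp : 1 < p) (c : E →ₗ[ℂ] (ℕ → ℂ)) (hc : IsEllp p c) (b : ℕ → E)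
    (hb : ∀ i j, c (b j) i = if i = j then 1 else 0) (C : Set (E →L[ℂ] E))
    (hC : C = PosE c ∨ ∃ S : Set ℂ, Cone S ∧ C = RegE p c b S)
    (t : TopologicalSpace C) (ht : t = SOTStar C ∨ t = SOT C) :
    C.Nonempty ∧ @IsCompletelyMetrizableSpace C t ∧ @BaireSpace C t ∧
      {T : C | DenselyHyperinvariant (T : E →L[ℂ] E)} ∈ @residual C t := by
  have hp0 : 0 < p := zero_lt_one.trans hp
  obtain ⟨P, hP1, hPt, hPr⟩ : ∃ P : ℝ≥0∞, 1 < P ∧ P ≠ ∞ ∧ P.toReal = p := by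
    refine ⟨ENNReal.ofReal p, ?_, ENNReal.ofReal_ne_top, ENNReal.toReal_ofReal hp0.le⟩
    rw [← ENNReal.ofReal_one]
    exact (ENNReal.ofReal_lt_ofReal_iff hp0).2 hp
  have : Fact (1 ≤ P) := ⟨hP1.le⟩
  have hc' : IsEllp P.toReal c := by rw [hPr]; exact hc
  obtain ⟨e, he⟩ := exists_isometry (by rw [hPr]; exact hp0) hc'
  have heb : ∀ j, e.symm (eP P j) = b j := by
    intro j
    rw [e.symm_apply_eq]
    ext i
    rw [he, hb, eP_apply]
  have hent : ∀ (T : E →L[ℂ] E) (i j : ℕ), ent (cj e T) i j = c (T (b j)) i := by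
    intro T i j
    unfold ent
    rw [cj_apply, heb, he]
  obtain ⟨C', hC', hCC'⟩ : ∃ C' : Set (EP P →L[ℂ] EP P),
      (C' = PosC P ∨ ∃ S : Set ℂ, Cone S ∧ C' = Cls P S) ∧ ∀ T, T ∈ C ↔ cj e T ∈ C' := by
    rcases hC with rfl | ⟨S, hS, rfl⟩
    · refine ⟨PosC P, Or.inl rfl, fun T => ?_⟩
      show (‖T‖ ≤ 1 ∧ _) ↔ (‖cj e T‖ ≤ 1 ∧ _)
      rw [norm_cj]
      refine and_congr_right fun _ => ⟨fun h x hx i => ?_, fun h x hx i => ?_⟩
      · rw [cj_apply, he]
        refine h _ (fun j => ?_) i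
        rw [← he, e.apply_symm_apply]
        exact hx j
      · have h1 := h (e x) (fun j => by rw [he]; exact hx j) i
        rwa [cj_apply, e.symm_apply_apply, he] at h1
    · refine ⟨Cls P S, Or.inr ⟨S, hS, rfl⟩, fun T => ?_⟩
      show (_ ∧ _) ↔ (_ ∧ _)
      unfold RegS
      simp only [hent, hPr]
  exact transfer_hyp True e C C' hCC' t (by rcases ht with h | h
                                            · exact Or.inl h
                                            · exact Or.inr ⟨h, trivial⟩)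
    DenselyHyperinvariant DenselyHyperinvariant (denselyHyperinvariant_cj e) fun t' ht' =>
      typ_pos_reg hP1 hPt C' hC' t' (by
        rcases ht' with h | ⟨h, -⟩
        · exact Or.inl h
        · exact Or.inr h)

end coordinates

end Run7.h667.PC
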