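import Pool.Agent.Run7.h667.PC.Refl
import Pool.Agent.Y280.HStep
import Pool.Agent.Y280.EllTyp

/-!
# Finite matrices, their entries, and the class of regular contractions
-/

set_option autoImplicit false
open Finset Filter Topology TopologicalSpace Polynomial
open scoped ENNReal ComplexOrder
open Pool.Agent.Y280 Run7.h667.TC

namespace Run7.h667.PC

variable {P : ℝ≥0∞} [hP : Fact (1 ≤ P)]

section entries

lemma ent_add (A B : EP P →L[ℂ] EP P) (i j : ℕ) : ent (A + B) i j = ent A i j + ent B i j := rfl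

lemma ent_smul (c : ℂ) (A : EP P →L[ℂ] EP P) (i j : ℕ) : ent (c • A) i j = c * ent A i j := rfl

lemma ent_sum {ι : Type*} (s : Finset ι) (A : ι → EP P →L[ℂ] EP P) (i j : ℕ) :
    ent (∑ k ∈ s, A k) i j = ∑ k ∈ s, ent (A k) i j := by
  unfold ent
  rw [_root_.sum_apply, lp.coeFn_sum, Finset.sum_apply]

/-- the operator of a finite matrix -/
noncomputable def op {N : ℕ} (M : Matrix (Fin N) (Fin N) ℂ) : EP P →L[ℂ] EP P :=
  opB (fun i : Fin N => eP P i) (fun i : Fin N => gP P i) M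

lemma op_apply {N : ℕ} (M : Matrix (Fin N) (Fin N) ℂ) (x : EP P) (i : ℕ) :
    (op M x : EP P) i = if h : i < N then ∑ j, M ⟨i, h⟩ j * x (j : ℕ) else 0 := by
  unfold op
  rw [opB_apply, lp.coeFn_sum, Finset.sum_apply]
  have e : ∀ a : Fin N, ((∑ j, M a j * gP P (j : ℕ) x) • eP P (a : ℕ) : EP P) i =
      if i = (a : ℕ) then ∑ j, M a j * x (j : ℕ) else 0 := by
    intro a
    rw [lp.coeFn_smul, Pi.smul_apply, eP_apply, smul_eq_mul, mul_ite, mul_one, mul_zero]
    rfl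
  rw [sum_congr rfl fun a _ => e a]
  by_cases h : i < N
  · rw [dif_pos h, sum_eq_single ⟨i, h⟩]
    · rw [if_pos rfl]
    · intro b _ hb
      rw [if_neg]
      intro hib
      exact hb (Fin.ext hib.symm)
    · intro h'
      exact absurd (mem_univ _) h'
  · rw [dif_neg h]
    apply sum_eq_zero
    intro b _
    rw [if_neg]
    intro hib
    exact h (hib ▸ b.2)

lemma ent_op {N : ℕ} (M : Matrix (Fin N) (Fin N) ℂ) (i j : ℕ) :
    ent (op (P := P) M) i j = if h : i < N ∧ j < N then M ⟨i, h.1⟩ ⟨j, h.2⟩ else 0 := by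
  unfold ent
  rw [op_apply]
  by_cases hi : i < N
  · rw [dif_pos hi]
    by_cases hj : j < N
    · rw [dif_pos ⟨hi, hj⟩, sum_eq_single ⟨j, hj⟩]
      · rw [eP_apply, if_pos rfl, mul_one]
      · intro b _ hb
        rw [eP_apply, if_neg, mul_zero]
        intro hbj
        exact hb (Fin.ext hbj)
      · intro h'
        exact absurd (mem_univ _) h'
    · rw [dif_neg (fun h : i < N ∧ j < N => hj h.2)]
      apply sum_eq_zero
      intro b _
      rw [eP_apply, if_neg, mul_zero]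
      intro hbj
      exact hj (hbj ▸ b.2)
  · rw [dif_neg hi, dif_neg (fun h : i < N ∧ j < N => hi h.1)]

lemma op_one (hPt : P ≠ ∞) (N : ℕ) : op (P := P) (1 : Matrix (Fin N) (Fin N) ℂ) = PV ℂ hPt N := by
  ext x i
  rw [op_apply, PV_apply]
  by_cases hi : i < N
  · rw [dif_pos hi, if_pos hi, sum_eq_single ⟨i, hi⟩]
    · rw [Matrix.one_apply_eq, one_mul]
    · intro b _ hb
      rw [Matrix.one_apply_ne (Ne.symm hb), zero_mul]
    · intro h'
      exact absurd (mem_univ _) h'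
  · rw [dif_neg hi, if_neg hi]

lemma op_mul (hPt : P ≠ ∞) {N : ℕ} (A B : Matrix (Fin N) (Fin N) ℂ) :
    op (P := P) A * op B = op (A * B) :=
  (blk_EP hPt Fin.val_injective).opB_mul A B

lemma op_add {N : ℕ} (A B : Matrix (Fin N) (Fin N) ℂ) :
    op (P := P) (A + B) = op A + op B := opB_add _ _ A B

lemma op_smul {N : ℕ} (c : ℂ) (A : Matrix (Fin N) (Fin N) ℂ) :
    op (P := P) (c • A) = c • op A := opB_smul A c

lemma norm_op (hPt : P ≠ ∞) {N : ℕ} {A : Matrix (Fin N) (Fin N) ℂ} {r : ℝ} (hr : 0 ≤ r)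
    (hA : OpM P.toReal A r) : ‖op (P := P) A‖ ≤ r :=
  (blk_EP hPt Fin.val_injective).norm_opB (toReal_pos' hPt) hr hA

/-- polynomials of finite matrices -/
lemma aeval_op (hPt : P ≠ ∞) {N : ℕ} (M : Matrix (Fin N) (Fin N) ℂ) (f : ℂ[X]) :
    aeval (op (P := P) M) f = op (aeval M f) + f.coeff 0 • (1 - PV ℂ hPt N) := by
  induction f using Polynomial.induction_on' with
  | add f g hf hg =>
    rw [map_add, map_add, hf, hg, op_add, coeff_add, add_smul]
    abel
  | monomial n c =>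
    rw [aeval_monomial, aeval_monomial, Algebra.algebraMap_eq_smul_one,
      Algebra.algebraMap_eq_smul_one, smul_mul_assoc, one_mul, smul_mul_assoc, one_mul, op_smul]
    have hpow : ∀ n, op (P := P) M ^ (n + 1) = op (M ^ (n + 1)) := by
      intro n
      induction n with
      | zero => rw [zero_add, pow_one, pow_one]
      | succ n ih => rw [pow_succ, ih, op_mul hPt, ← pow_succ]
    rcases n with _ | n
    · rw [pow_zero, pow_zero, op_one hPt, coeff_monomial, if_pos rfl, smul_sub]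
      abel
    · rw [hpow, coeff_monomial, if_neg (Nat.succ_ne_zero n), zero_smul, add_zero]

lemma exists_poly (hPt : P ≠ ∞) {N : ℕ} {M : Matrix (Fin N) (Fin N) ℂ} {χ : ℂ[X]}
    (h : aeval M χ = 0) (hs : χ.Separable) :
    ∃ χ' : ℂ[X], aeval (op (P := P) M) χ' = 0 ∧ χ'.Separable := by
  have h0 : op (P := P) (0 : Matrix (Fin N) (Fin N) ℂ) = 0 := by
    have := op_smul (P := P) (0 : ℂ) (0 : Matrix (Fin N) (Fin N) ℂ)
    rwa [zero_smul, zero_smul] at this
  by_cases hc : χ.coeff 0 = 0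
  · refine ⟨χ, ?_, hs⟩
    rw [aeval_op hPt, h, hc, zero_smul, add_zero, h0]
  · refine ⟨X * χ, ?_, ?_⟩
    · rw [map_mul, aeval_X, aeval_op hPt, h, h0, zero_add, mul_smul_comm, mul_sub, mul_one,
        ← op_one hPt, op_mul hPt, mul_one, sub_self, smul_zero]
    · refine Polynomial.Separable.mul separable_X hs ?_
      rw [irreducible_X.coprime_iff_not_dvd, X_dvd_iff]
      exact hc

end entries

section blocks

variable (hPt : P ≠ ∞) (n k : ℕ)

lemma VV_eP (i b : ℕ) : VV ℂ (P := P) hPt n k i (eP P b) =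
    if off n k i ≤ b ∧ b < off n k i + n then eP P (b - off n k i) else 0 := by
  ext a
  rw [VV_apply, eP_apply]
  by_cases hb : off n k i ≤ b ∧ b < off n k i + n
  · rw [if_pos hb, eP_apply]
    by_cases ha : a < n
    · rw [if_pos ha]
      by_cases hab : a = b - off n k i
      · rw [if_pos (by omega), if_pos hab]
      · rw [if_neg (by omega), if_neg hab]
    · rw [if_neg ha, if_neg (by omega)]
  · rw [if_neg hb]
    have e0 : ((0 : EP P) : ∀ _ : ℕ, ℂ) a = 0 := rfl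
    rw [e0]
    by_cases ha : a < n
    · rw [if_pos ha, if_neg (by omega)]
    · rw [if_neg ha]

lemma ent_UBV (B : EP P →L[ℂ] EP P) (i a b : ℕ) :
    ent (UV ℂ hPt n k i * B * VV ℂ hPt n k i) a b =
      if (off n k i ≤ a ∧ a < off n k i + n) ∧ (off n k i ≤ b ∧ b < off n k i + n) then
        ent B (a - off n k i) (b - off n k i) else 0 := by
  have e : ent (UV ℂ hPt n k i * B * VV ℂ hPt n k i) a b =
      (UV ℂ hPt n k i (B (VV ℂ hPt n k i (eP P b))) : EP P) a := rfl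
  rw [e, UV_apply, VV_eP]
  by_cases ha : off n k i ≤ a ∧ a < off n k i + n
  · rw [if_pos ha]
    by_cases hb : off n k i ≤ b ∧ b < off n k i + n
    · rw [if_pos hb, if_pos ⟨ha, hb⟩]
      rfl
    · rw [if_neg hb, if_neg (fun h => hb h.2), map_zero]
      rfl
  · rw [if_neg ha, if_neg (fun h => ha h.1)]

lemma ent_UV' (i b' a b : ℕ) :
    ent (UV ℂ hPt n k i * VV ℂ hPt n k b' : EP P →L[ℂ] EP P) a b = 0 ∨
      ent (UV ℂ hPt n k i * VV ℂ hPt n k b' : EP P →L[ℂ] EP P) a b = 1 := by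
  have e : ent (UV ℂ hPt n k i * VV ℂ hPt n k b' : EP P →L[ℂ] EP P) a b =
      (UV ℂ hPt n k i (VV ℂ hPt n k b' (eP P b)) : EP P) a := rfl
  rw [e, UV_apply, VV_eP]
  split_ifs
  · rw [eP_apply]
    split_ifs
    · exact Or.inr rfl
    · exact Or.inl rfl
  · exact Or.inl rfl
  · exact Or.inl rfl

end blocks

section maj

/-- the operator `G` has nonnegative entries which dominate those of `A` -/
def Maj (A G : EP P →L[ℂ] EP P) : Prop := ∀ i j, ((‖ent A i j‖ : ℝ) : ℂ) ≤ ent G i j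

lemma Maj.nonneg {A G : EP P →L[ℂ] EP P} (h : Maj A G) (i j : ℕ) : 0 ≤ ent G i j :=
  le_trans (by exact_mod_cast norm_nonneg _) (h i j)

lemma Maj.norm_le {A G : EP P →L[ℂ] EP P} (h : Maj A G) (i j : ℕ) :
    ‖ent A i j‖ ≤ ‖ent G i j‖ := by
  have h1 := h i j
  rw [Complex.le_def] at h1
  have h2 : ‖ent A i j‖ ≤ (ent G i j).re := by simpa using h1.1
  exact h2.trans (Complex.re_le_norm _)

/-- A contraction with nonnegative entries is regular. -/
lemma regS_of_nonneg (hP1 : 1 < P) (hPt : P ≠ ∞) {T : EP P →L[ℂ] EP P} (hn : ‖T‖ ≤ 1)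
    (hent : ∀ i j, 0 ≤ ent T i j) : RegS P.toReal (ent T) := by
  have h1 : T ∈ PosC P := by
    refine ⟨hn, fun x hx i => ?_⟩
    have hlim : Tendsto (fun N => T ((1 - QP P N) x) i) atTop (𝓝 (T x i)) := by
      have h1 := (QP_tendsto hPt x).const_sub x
      rw [sub_zero] at h1
      exact ((gP P i).continuous.tendsto _).comp ((T.continuous.tendsto _).comp h1)
    refine ge_of_tendsto' hlim fun N => ?_
    rw [T_one_sub]
    exact sum_nonneg fun j _ => mul_nonneg (hent i j) (hx j)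
  rw [posC_eq hP1 hPt] at h1
  exact h1.1

lemma Maj.regS (hP1 : 1 < P) (hPt : P ≠ ∞) {A G : EP P →L[ℂ] EP P} (h : Maj A G)
    (hG : ‖G‖ ≤ 1) : RegS P.toReal (ent A) :=
  (regS_of_nonneg hP1 hPt hG h.nonneg).mono (toReal_pos' hPt).le h.norm_le

lemma wt_real {m : ℕ} {δ w : ℝ} (hδ : 0 ≤ δ) (hw : 0 ≤ w) (j : ℕ) :
    ∃ r : ℝ, 0 ≤ r ∧ wt m δ w j = (r : ℂ) := by
  unfold wt
  split_ifs
  · exact ⟨δ, hδ, rfl⟩
  · exact ⟨w, hw, rfl⟩

lemma Maj.bigO (hPt : P ≠ ∞) {A G : EP P →L[ℂ] EP P} (h : Maj A G) (n k m : ℕ) {δ w : ℝ}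
    (hδ : 0 ≤ δ) (hw : 0 ≤ w) :
    Maj (bigO A (UV ℂ hPt n k) (VV ℂ hPt n k) m δ w)
      (bigO G (UV ℂ hPt n k) (VV ℂ hPt n k) m δ w) := by
  intro a b
  unfold TC.bigO
  rw [ent_add, ent_add, ent_sum, ent_sum, ent_sum]
  refine le_trans (b := (((∑ j ∈ range (m + 2), ‖ent (UV ℂ hPt n k j * A * VV ℂ hPt n k j) a b‖ +
    ∑ j ∈ range (m + 1), ‖ent (wt m δ w j • (UV ℂ hPt n k (j + 1) * VV ℂ hPt n k j)) a b‖ : ℝ)) :
      ℂ)) ?_ ?_
  · rw [Complex.real_le_real]
    exact (norm_add_le _ _).trans (add_le_add (norm_sum_le _ _) (norm_sum_le _ _))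
  · rw [Complex.ofReal_add, Complex.ofReal_sum, Complex.ofReal_sum]
    refine add_le_add (sum_le_sum fun j _ => ?_) (sum_le_sum fun j _ => ?_)
    · rw [ent_UBV, ent_UBV]
      split_ifs
      · exact h _ _
      · simp
    · rw [ent_smul]
      obtain ⟨r, hr, hr'⟩ := wt_real (m := m) hδ hw j
      rw [hr']
      rcases ent_UV' hPt n k (j + 1) j a b with h1 | h1
      · rw [h1]; simp
      · rw [h1, mul_one, Complex.norm_real, Real.norm_of_nonneg hr]

/-- the entries of the big operator -/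
lemma ent_bigO_mem (hPt : P ≠ ∞) {S : Set ℂ} (h0 : (0 : ℂ) ∈ S)
    (hadd : ∀ z ∈ S, ∀ z' ∈ S, z + z' ∈ S) (hpos : ∀ r : ℝ, 0 ≤ r → (r : ℂ) ∈ S)
    {A : EP P →L[ℂ] EP P} (hA : ∀ i j, ent A i j ∈ S) (n k m : ℕ) {δ w : ℝ}
    (hδ : 0 ≤ δ) (hw : 0 ≤ w) (a b : ℕ) :
    ent (bigO A (UV ℂ hPt n k) (VV ℂ hPt n k) m δ w) a b ∈ S := by
  have hsum : ∀ (s : Finset ℕ) (f : ℕ → ℂ), (∀ i ∈ s, f i ∈ S) → ∑ i ∈ s, f i ∈ S := by
    intro s f
    induction s using Finset.induction_on with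
    | empty => intro _; simpa using h0
    | insert b s hb ih =>
      intro hs
      rw [sum_insert hb]
      exact hadd _ (hs b (mem_insert_self _ _)) _ (ih fun i hi => hs i (mem_insert_of_mem hi))
  unfold TC.bigO
  rw [ent_add, ent_sum, ent_sum]
  refine hadd _ (hsum _ _ fun j _ => ?_) _ (hsum _ _ fun j _ => ?_)
  · rw [ent_UBV]
    split_ifs
    · exact hA _ _
    · exact h0
  · rw [ent_smul]
    obtain ⟨r, hr, hr'⟩ := wt_real (m := m) hδ hw j
    rw [hr']
    rcases ent_UV' hPt n k (j + 1) j a b with h1 | h1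
    · rw [h1, mul_zero]; exact h0
    · rw [h1, mul_one]; exact hpos r hr

end maj

end Run7.h667.PC
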