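import Pool.Agent.Run7.h667.PC.Rows

/-!
# Points of continuity, and typical regular contractions
-/

set_option autoImplicit false
open Finset Filter Topology TopologicalSpace
open scoped ENNReal ComplexOrder
open Pool.Agent.Y280 Run7.h667.TC

namespace Run7.h667.PC

variable {P : ℝ≥0∞} [hP : Fact (1 ≤ P)]

lemma Maj.opNorm_le (hP1 : 1 < P) (hPt : P ≠ ∞) {A G : EP P →L[ℂ] EP P} (h : Maj A G) {r : ℝ}
    (hG : ‖G‖ ≤ r) (hr : 0 ≤ r) : ‖A‖ ≤ r := by
  refine le_of_forall_gt_imp_ge_of_dense fun s hs => ?_
  have h0 : 0 < s := hr.trans_lt hs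
  have h1 : Maj (((s⁻¹ : ℝ) : ℂ) • A) (((s⁻¹ : ℝ) : ℂ) • G) := by
    intro i j
    rw [ent_smul, ent_smul, norm_mul, Complex.norm_real, Real.norm_of_nonneg (by positivity),
      Complex.ofReal_mul]
    refine mul_le_mul_of_nonneg_left (h i j) ?_
    exact_mod_cast (by positivity : (0 : ℝ) ≤ s⁻¹)
  have h2 : ‖((s⁻¹ : ℝ) : ℂ) • G‖ ≤ 1 := by
    rw [norm_smul, Complex.norm_real, Real.norm_of_nonneg (by positivity), inv_mul_le_iff₀ h0,
      mul_one]
    exact hG.trans hs.le
  have h3 := norm_le_one_of_RegS hP1 hPt (h1.regS hP1 hPt h2)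
  rwa [norm_smul, Complex.norm_real, Real.norm_of_nonneg (by positivity), inv_mul_le_iff₀ h0,
    mul_one] at h3

lemma cmp_op (hPt : P ≠ ∞) {N : ℕ} (M : Matrix (Fin N) (Fin N) ℂ) :
    Pool.Agent.Y280.cmp (op (P := P) M) N = op M := by
  unfold Pool.Agent.Y280.cmp
  rw [← PV_eq hPt, ← op_one hPt, op_mul hPt, op_mul hPt, one_mul, mul_one]

lemma ent_R (i m : ℕ) (δ b : ℝ) (a c : ℕ) :
    ent ((δ : ℂ) • (gP P m).smulRight (eP P i) + (b : ℂ) • (gP P m).smulRight (eP P m)) a c =
      if c = m then (((if a = i then δ else 0) + (if a = m then b else 0) : ℝ) : ℂ) else 0 := by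
  have e : ∀ l, ent ((gP P m).smulRight (eP P l)) a c =
      (if m = c then 1 else 0) * (if a = l then 1 else 0) := by
    intro l
    have : ent ((gP P m).smulRight (eP P l)) a c = gP P m (eP P c) * eP P l a := rfl
    rw [this, gP_eP, eP_apply]
  rw [ent_add, ent_smul, ent_smul, e, e]
  by_cases h : c = m
  · rw [if_pos h.symm, if_pos h, one_mul, one_mul]
    push_cast
    split_ifs <;> simp
  · rw [if_neg (Ne.symm h), if_neg h]
    simp

lemma dense_points_cls (hP1 : 1 < P) (hPt : P ≠ ∞) {S : Set ℂ} (hS : Cone S) :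
    @Dense (Cls P S) (sotStar (Cls P S))
      {w | @nhds _ (sot (Cls P S)) w ≤ @nhds _ (sotStar (Cls P S)) w} := by
  classical
  have hp := toReal_pos' hPt
  have hfc := fc_of_cm _ (cls_cm_sot hP1 hPt hS.closed)
  set W := Cls P S with hWdef
  -- the sets of small oscillation
  let O : ℕ → ℕ → Set W := fun i m => ⋃ (U : Set W) (_ : @IsOpen W (sot W) U ∧
    ∀ z ∈ U, ∀ z' ∈ U, ‖(gP P i).comp (z : EP P →L[ℂ] EP P) -
      (gP P i).comp (z' : EP P →L[ℂ] EP P)‖ ≤ 1 / ((m : ℝ) + 1)), U
  have hres : ∀ i m, O i m ∈ @residual W (sotStar W) := by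
    intro i m
    letI : TopologicalSpace W := sotStar W
    apply residual_of_dense_open
    · exact isOpen_iUnion fun U => isOpen_iUnion fun hU => sotStar_le_sot _ U hU.1
    · rw [dense_iff_inter_open]
      intro V hV hVne
      obtain ⟨w0, hw0⟩ := hVne
      obtain ⟨X, Y, ε1, hε1, hnear⟩ := nhdS_sotStar (Cls P S) w0 V hV hw0
      obtain ⟨N, hN0, M, G, r, hr0, hr1, hG, hMaj, hMS, hX, hY, -, -, -⟩ :=
        exists_mat hP1 hPt hS w0.2 X Y hε1 (i + 1)
      have hGn : ‖op (P := P) G‖ ≤ r := norm_op hPt hr0 hG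
      set w1 : W := ⟨op M, hMaj.regS hP1 hPt (hGn.trans hr1.le), hMS⟩ with hw1
      have hw1V : w1 ∈ V := hnear w1 hX hY
      set A : EP P →L[ℂ] EP P := op (fun a b : Fin N => ((‖M a b‖ : ℝ) : ℂ)) with hA
      have hAent : ∀ a b, ent A a b = ((‖ent (op (P := P) M) a b‖ : ℝ) : ℂ) := by
        intro a b
        rw [hA, ent_op, ent_op]
        split_ifs
        · rfl
        · rw [norm_zero, Complex.ofReal_zero]
      have hAG : Maj A (op G) := by
        intro a b
        rw [hAent, Complex.norm_real, Real.norm_of_nonneg (norm_nonneg _)]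
        exact hMaj a b
      have hwr : ‖A‖ ≤ r := hAG.opNorm_le hP1 hPt hGn hr0
      have hcmp' : Pool.Agent.Y280.cmp A N = A := cmp_op hPt _
      set δ : ℕ → ℝ := fun k => (1 - r) / ((k : ℝ) + 2) with hδ
      have hδ0 : ∀ k, 0 < δ k := by
        intro k
        have h2 : (0 : ℝ) ≤ k := Nat.cast_nonneg k
        exact div_pos (by linarith) (by linarith)
      have hδ1 : ∀ k, r + δ k < 1 := by
        intro k
        have h2 : (0 : ℝ) ≤ k := Nat.cast_nonneg k
        have h4 : (1 - r) / ((k : ℝ) + 2) < 1 - r := by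
          rw [div_lt_iff₀ (by linarith)]
          nlinarith
        simp only [hδ]
        linarith
      have hδl : Tendsto δ atTop (𝓝 0) := by
        have := tendsto_const_div_atTop_nhds_zero_nat (1 - r)
        have h2 := this.comp (tendsto_add_atTop_nat 2)
        refine h2.congr fun k => ?_
        simp [hδ]
      choose b hb0 hb1 v hv0 hTn hvn hTv hTi using fun k : ℕ =>
        exists_pert hPt hcmp' hwr hr1 (i := i) (m := N + k) (by omega) (by omega) (hδ0 k) (hδ1 k)
      set R : ℕ → EP P →L[ℂ] EP P := fun k => (δ k : ℂ) • (gP P (N + k)).smulRight (eP P i) +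
        (b k : ℂ) • (gP P (N + k)).smulRight (eP P (N + k)) with hR
      have hκt : Tendsto (fun m => N + m) atTop atTop :=
        tendsto_atTop_mono (fun m => Nat.le_add_left m N) tendsto_id
      have hp1 := one_lt_toReal hP1 hPt
      have hF := frame_lp hP1 hPt (Real.HolderConjugate.conjExponent hp1)
      have hgx : ∀ x : EP P, Tendsto (fun k => gP P (N + k) x) atTop (𝓝 0) := fun x =>
        (hF.hgx x).comp hκt
      have hye : ∀ y : StrongDual ℂ (EP P), Tendsto (fun k => y (eP P (N + k))) atTop (𝓝 0) :=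
        fun y => (hF.hyf y).comp hκt
      have hδc : Tendsto (fun k => ((δ k : ℝ) : ℂ)) atTop (𝓝 0) := by
        have h9 := (Complex.continuous_ofReal.tendsto 0).comp hδl
        rw [Complex.ofReal_zero] at h9
        exact h9
      have hRx : ∀ x, Tendsto (fun k => R k x) atTop (𝓝 0) := by
        intro x
        rw [tendsto_zero_iff_norm_tendsto_zero]
        have h1 : Tendsto (fun k => 2 * ‖gP P (N + k) x‖) atTop (𝓝 (2 * 0)) :=
          (tendsto_zero_iff_norm_tendsto_zero.1 (hgx x)).const_mul 2
        rw [mul_zero] at h1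
        refine squeeze_zero (fun _ => norm_nonneg _) (fun k => ?_) h1
        simp only [hR, _root_.add_apply, _root_.smul_apply, ContinuousLinearMap.smulRight_apply]
        refine (norm_add_le _ _).trans ?_
        rw [norm_smul, norm_smul, norm_smul, norm_smul, norm_eP, norm_eP, Complex.norm_real,
          Complex.norm_real, Real.norm_of_nonneg (hδ0 k).le, Real.norm_of_nonneg (hb0 k)]
        have h2 : δ k ≤ 1 := by have := hδ1 k; linarith
        have h3 := hb1 k
        have h4 := norm_nonneg (gP P (N + k) x)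
        nlinarith [hδ0 k, hb0 k]
      have hRy : ∀ y : StrongDual ℂ (EP P), Tendsto (fun k => y.comp (R k)) atTop (𝓝 0) := by
        intro y
        rw [tendsto_zero_iff_norm_tendsto_zero]
        have h1 : Tendsto (fun k => δ k * ‖y (eP P i)‖ + ‖y (eP P (N + k))‖) atTop
            (𝓝 (0 * ‖y (eP P i)‖ + 0)) :=
          (hδl.mul_const _).add (tendsto_zero_iff_norm_tendsto_zero.1 (hye y))
        rw [zero_mul, add_zero] at h1
        refine squeeze_zero (fun _ => norm_nonneg _) (fun k => ?_) h1
        refine ContinuousLinearMap.opNorm_le_bound _ (by have := hδ0 k; positivity) fun x => ?_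
        simp only [hR, ContinuousLinearMap.comp_apply, _root_.add_apply, _root_.smul_apply,
          ContinuousLinearMap.smulRight_apply, map_add, map_smul, smul_eq_mul]
        refine (norm_add_le _ _).trans ?_
        rw [norm_mul, norm_mul, norm_mul, norm_mul, Complex.norm_real,
          Complex.norm_real, Real.norm_of_nonneg (hδ0 k).le, Real.norm_of_nonneg (hb0 k), add_mul]
        have h4 : ‖gP P (N + k) x‖ ≤ ‖x‖ := norm_coord_le x _
        refine add_le_add ?_ ?_
        · have h5 : ‖gP P (N + k) x‖ * ‖y (eP P i)‖ ≤ ‖x‖ * ‖y (eP P i)‖ :=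
            mul_le_mul_of_nonneg_right h4 (norm_nonneg _)
          have h6 := mul_le_mul_of_nonneg_left h5 (hδ0 k).le
          linarith
        · have h5 : ‖gP P (N + k) x‖ * ‖y (eP P (N + k))‖ ≤ ‖x‖ * ‖y (eP P (N + k))‖ :=
            mul_le_mul_of_nonneg_right h4 (norm_nonneg _)
          have h6 : b k * (‖gP P (N + k) x‖ * ‖y (eP P (N + k))‖) ≤
              ‖gP P (N + k) x‖ * ‖y (eP P (N + k))‖ :=
            mul_le_of_le_one_left (by positivity) (hb1 k)
          linarith
      -- the entries of the perturbations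
      have hopM : ∀ (k : ℕ) (a c : ℕ), N ≤ c ∨ N ≤ a → ent (op (P := P) M) a c = 0 := by
        intro _ a c h
        rw [ent_op, dif_neg (by omega)]
      have hRent : ∀ k a c, ent (R k) a c = if c = N + k then
          (((if a = i then δ k else 0) + (if a = N + k then b k else 0) : ℝ) : ℂ) else 0 :=
        fun k a c => ent_R i (N + k) (δ k) (b k) a c
      have hTent : ∀ k a c, ent (A + R k) a c = ((‖ent (op M + R k) a c‖ : ℝ) : ℂ) := by
        intro k a c
        rw [ent_add A (R k), ent_add (op M) (R k), hAent, hRent]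
        by_cases hc : c = N + k
        · rw [if_pos hc, hopM k a c (Or.inl (by omega)), norm_zero, Complex.ofReal_zero, zero_add,
            Complex.norm_real, Real.norm_of_nonneg]
          have h1 := (hδ0 k).le
          have h2 := hb0 k
          positivity
        · rw [if_neg hc, add_zero, add_zero]
      have hTmem : ∀ k a c, ent (op M + R k) a c ∈ S := by
        intro k a c
        rw [ent_add (op M) (R k), hRent]
        by_cases hc : c = N + k
        · rw [if_pos hc, hopM k a c (Or.inl (by omega)), zero_add]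
          apply hS.pos
          have h1 := (hδ0 k).le
          have h2 := hb0 k
          positivity
        · rw [if_neg hc, add_zero]
          exact hMS a c
      have hTreg : ∀ k, RegS P.toReal (ent (op (P := P) M + R k)) := by
        intro k
        have h1 : Maj (op M + R k) (A + R k) := fun a c => le_of_eq (hTent k a c).symm
        exact h1.regS hP1 hPt (hTn k).le
      let u : ℕ → W := fun k => ⟨op M + R k, hTreg k, hTmem k⟩
      have hul : Tendsto u atTop (𝓝 w1) := by
        apply htend_of_le (C := W) le_rfl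
        · intro x
          have h1 := (hRx x).const_add (op M x)
          rw [add_zero] at h1
          exact h1
        · intro y
          have h1 := (hRy y).const_add (y.comp (op M))
          rw [add_zero] at h1
          refine h1.congr fun k => ?_
          rw [← ContinuousLinearMap.comp_add]
      obtain ⟨k, hk⟩ := (hul.eventually (hV.mem_nhds hw1V)).exists
      refine ⟨u k, hk, ?_⟩
      -- the norming vector
      have hvk : v k = (1 - QP P (N + k + 1)) (v k) := by
        rw [_root_.sub_apply, hv0 k, sub_zero]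
        rfl
      have hcoord : ∀ a, ((A + R k) (v k) : EP P) a =
          ∑ j ∈ range (N + k + 1), ent (A + R k) a j * v k j := by
        intro a
        conv_lhs => rw [hvk]
        exact T_one_sub _ _ _ _
      have hbig : ∀ a, N + k + 1 ≤ a → ((A + R k) (v k) : EP P) a = 0 := by
        intro a ha
        rw [hcoord]
        refine sum_eq_zero fun j _ => ?_
        rw [ent_add A (R k), hAent, hopM k a j (Or.inr (by omega)), norm_zero, Complex.ofReal_zero,
          zero_add, hRent, if_neg (show a ≠ i by omega), if_neg (show a ≠ N + k by omega)]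
        simp
      have hcoord_le : ∀ a, ‖((A + R k) (v k) : EP P) a‖ ≤
          ∑ j ∈ range (N + k + 1), ‖ent (op M + R k) a j‖ * ‖v k j‖ := by
        intro a
        rw [hcoord]
        refine (norm_sum_le _ _).trans (le_of_eq (sum_congr rfl fun j _ => ?_))
        rw [norm_mul, hTent, Complex.norm_real, Real.norm_of_nonneg (norm_nonneg _)]
      have hS1 : ∑ j ∈ range (N + k + 1), ‖v k j‖ ^ P.toReal ≤ 1 := by
        have h1 := lp.sum_rpow_le_norm_rpow hp (v k) (range (N + k + 1))
        rw [hvn k, Real.one_rpow] at h1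
        exact h1
      have hS2 : 1 ≤ ∑ a ∈ range (N + k + 1),
          (∑ j ∈ range (N + k + 1), ‖ent (op M + R k) a j‖ * ‖v k j‖) ^ P.toReal := by
        have h1 := norm_supp hPt _ _ hbig
        have h2 : ‖(A + R k) (v k)‖ = 1 := hTv k
        rw [h2, Real.one_rpow] at h1
        rw [h1]
        exact sum_le_sum fun a _ => Real.rpow_le_rpow (norm_nonneg _) (hcoord_le a) hp.le
      have hS3 : 0 < ∑ j ∈ range (N + k + 1), ‖ent (op M + R k) i j‖ * ‖v k j‖ :=
        (norm_pos_iff.2 (hTi k)).trans_le (hcoord_le i)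
      -- the row is continuous at `u k`
      have hcont : Tendsto (fun z : W => (gP P i).comp (z : EP P →L[ℂ] EP P))
          (@nhds W (sot W) (u k)) (𝓝 ((gP P i).comp (u k : EP P →L[ℂ] EP P))) := by
        haveI : (@nhds W (sot W) (u k)).IsCountablyGenerated :=
          @FirstCountableTopology.nhds_generated_countable W (sot W) hfc (u k)
        apply tendsto_of_seq_tendsto
        intro z hz
        have hzx : ∀ x, Tendsto (fun l => (z l : EP P →L[ℂ] EP P) x) atTop
            (𝓝 ((u k : EP P →L[ℂ] EP P) x)) := fun x =>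
          Tendsto.comp (@Continuous.tendsto _ _ (sot W) _ _ (hc_of_le (C := W) le_rfl x) (u k)) hz
        exact row_cls hP1 hPt (fun l => (z l).2.1) (u k).2.1 hzx (N1 := N + k + 1) (by omega)
          (v := fun j => ‖v k j‖) (fun j => norm_nonneg _) hS1 hS2 hS3
      have hε : (0 : ℝ) < 1 / ((m : ℝ) + 1) / 2 := by positivity
      have hev := (Metric.tendsto_nhds.1 hcont) _ hε
      obtain ⟨U, hUs, hUo, hUm⟩ := (@mem_nhds_iff W (sot W) (u k) _).1 hev
      simp only [O, Set.mem_iUnion]
      refine ⟨U, ⟨hUo, fun z hz z' hz' => ?_⟩, hUm⟩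
      have h1 : dist ((gP P i).comp (z : EP P →L[ℂ] EP P))
        ((gP P i).comp (u k : EP P →L[ℂ] EP P)) < _ := hUs hz
      have h2 : dist ((gP P i).comp (z' : EP P →L[ℂ] EP P))
        ((gP P i).comp (u k : EP P →L[ℂ] EP P)) < _ := hUs hz'
      rw [← dist_eq_norm]
      refine (dist_triangle_right _ _ ((gP P i).comp (u k : EP P →L[ℂ] EP P))).trans ?_
      linarith
  have hG : ∀ᶠ w in @residual W (sotStar W), ∀ i m, w ∈ O i m := by
    rw [eventually_countable_forall]; intro i
    rw [eventually_countable_forall]; intro m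
    exact hres i m
  haveI hB : @BaireSpace W (sotStar W) :=
    @BaireSpace.of_completelyPseudoMetrizable _ (sotStar W)
      (@IsCompletelyMetrizableSpace.toIsCompletelyPseudoMetrizableSpace _ (sotStar W)
        (cls_cm_sotStar hP1 hPt hS.closed))
  have hdense := @dense_of_mem_residual W (sotStar W) hB _ hG
  refine @Dense.mono W (sotStar W) _ _ ?_ hdense
  intro w hw
  have hw' : ∀ i m, w ∈ O i m := hw
  show @nhds W (sot W) w ≤ @nhds W (sotStar W) w
  haveI : (@nhds W (sot W) w).IsCountablyGenerated :=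
    @FirstCountableTopology.nhds_generated_countable W (sot W) hfc w
  have : Tendsto id (@nhds W (sot W) w) (@nhds W (sotStar W) w) := by
    apply tendsto_of_seq_tendsto
    intro z hz
    have hzx : ∀ x, Tendsto (fun l => (z l : EP P →L[ℂ] EP P) x) atTop
        (𝓝 ((w : EP P →L[ℂ] EP P) x)) := fun x =>
      Tendsto.comp (@Continuous.tendsto _ _ (sot W) _ _ (hc_of_le (C := W) le_rfl x) w) hz
    have hzr : ∀ i, Tendsto (fun l => (gP P i).comp (z l : EP P →L[ℂ] EP P)) atTop
        (𝓝 ((gP P i).comp (w : EP P →L[ℂ] EP P))) := by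
      intro i
      rw [Metric.tendsto_atTop']
      intro ε hε
      obtain ⟨m, hm⟩ := exists_nat_one_div_lt hε
      have h1 := hw' i m
      simp only [O, Set.mem_iUnion] at h1
      obtain ⟨U, ⟨hUo, hU⟩, hwU⟩ := h1
      have h2 : ∀ᶠ l in atTop, z l ∈ U :=
        hz.eventually (@IsOpen.mem_nhds W (sot W) w U hUo hwU)
      obtain ⟨L, hL⟩ := eventually_atTop.1 h2
      refine ⟨L, fun l hl => ?_⟩
      rw [dist_eq_norm]
      exact (hU _ (hL l (le_of_lt hl)) _ hwU).trans_lt hm
    exact htend_of_le (C := W) le_rfl z w hzx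
      (all_rows hP1 hPt (fun l => cls_norm hP1 hPt _ (z l).2) (cls_norm hP1 hPt _ w.2) hzr)
  exact this

/-- **Typical regular contractions of `ℓ_p` and their commutants.** -/
theorem typ_reg (hP1 : 1 < P) (hPt : P ≠ ∞) {S : Set ℂ} (hS : Cone S)
    (t : TopologicalSpace (Cls P S)) (ht : t = sotStar (Cls P S) ∨ t = sot (Cls P S)) :
    (Cls P S).Nonempty ∧ @IsCompletelyMetrizableSpace (Cls P S) t ∧ @BaireSpace (Cls P S) t ∧
      {T : Cls P S | DenselyHyperinvariant (T : EP P →L[ℂ] EP P)} ∈ @residual (Cls P S) t := by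
  have hcm1 := cls_cm_sot hP1 hPt hS.closed
  have hcm2 := cls_cm_sotStar hP1 hPt hS.closed
  have := sep_EP (P := P) hPt
  have := sep_EP_dual hP1 hPt
  have : Nontrivial (EP P) := ⟨eP P 0, 0, fun h0 => by
    have := norm_eP (P := P) 0
    rw [h0, norm_zero] at this
    exact zero_ne_one this⟩
  have hp1 := one_lt_toReal hP1 hPt
  have hstar : {w : Cls P S | GoodH (w : EP P →L[ℂ] EP P)} ∈
      @residual (Cls P S) (sotStar (Cls P S)) :=
    @typ_cls (EP P) _ _ (Cls P S) (sotStar (Cls P S)) (fun w => (w : EP P →L[ℂ] EP P)) _ _ _ _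
      P.toReal _ (Real.HolderConjugate.conjExponent hp1) (refl_EP hP1 hPt)
      (nhdS_sotStar (Cls P S)) (semiS_sotStar (refl_EP hP1 hPt) (Cls P S) (cls_norm hP1 hPt))
      (densS_cls hP1 hPt hS)
  have hgood : ∀ T : Cls P S, GoodH (T : EP P →L[ℂ] EP P) →
      DenselyHyperinvariant (T : EP P →L[ℂ] EP P) := fun T hT => hyp_of_goodH hT
  have hb : ∀ t : TopologicalSpace (Cls P S), @IsCompletelyMetrizableSpace (Cls P S) t →
      @BaireSpace (Cls P S) t := fun t hcm =>
    @BaireSpace.of_completelyPseudoMetrizable _ t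
      (@IsCompletelyMetrizableSpace.toIsCompletelyPseudoMetrizableSpace _ t hcm)
  have hzero : (0 : EP P →L[ℂ] EP P) ∈ Cls P S := by
    have he : ∀ i j, ent (0 : EP P →L[ℂ] EP P) i j = 0 := fun i j => rfl
    refine ⟨regS_of_nonneg hP1 hPt (by simp) fun i j => by rw [he], fun i j => by
      rw [he]; exact hS.zero⟩
  refine ⟨⟨0, hzero⟩, ?_⟩
  rcases ht with rfl | rfl
  · exact ⟨hcm2, hb _ hcm2, Filter.mem_of_superset hstar fun T hT => hgood T hT⟩
  · have hsot : {w : Cls P S | GoodH (w : EP P →L[ℂ] EP P)} ∈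
        @residual (Cls P S) (sot (Cls P S)) :=
      residual_transfer _ _ (sotStar_le_sot _) (dense_points_cls hP1 hPt hS) hstar
    exact ⟨hcm1, hb _ hcm1, Filter.mem_of_superset hsot fun T hT => hgood T hT⟩

end Run7.h667.PC
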