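import Pool.Agent.Run7.h667.PC.Dens
import Pool.Agent.Y280.GFin

/-!
# Norm convergence of the rows of regular contractions
-/

set_option autoImplicit false
open Finset Filter Topology TopologicalSpace
open scoped ENNReal ComplexOrder
open Pool.Agent.Y280 Run7.h667.TC

namespace Run7.h667.PC

lemma bern {p : ℝ} (hp : 1 < p) {c b : ℝ} (hc : 0 ≤ c) (hb : 0 ≤ b) :
    c ^ p + p * c ^ (p - 1) * b ≤ (c + b) ^ p := by
  rcases hc.eq_or_lt with h | h
  · rw [← h, Real.zero_rpow (by linarith), Real.zero_rpow (by linarith), mul_zero, zero_mul,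
      zero_add, zero_add]
    positivity
  · have h1 := one_add_mul_self_le_rpow_one_add (s := b / c)
      (by have : 0 ≤ b / c := by positivity
          linarith) hp.le
    have h2 : (c + b) ^ p = c ^ p * (1 + b / c) ^ p := by
      rw [← Real.mul_rpow hc (by positivity)]
      congr 1
      field_simp
    have h3 : c ^ p = c ^ (p - 1) * c := by
      rw [← Real.rpow_add_one h.ne']
      congr 1
      ring
    rw [h2]
    have h4 : c ^ p + p * c ^ (p - 1) * b = c ^ p * (1 + p * (b / c)) := by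
      rw [h3]
      field_simp
    rw [h4]
    exact mul_le_mul_of_nonneg_left h1 (by positivity)

/-- the main inequality -/
lemma row_ineq {p : ℝ} (hp : 1 < p) {a : ℕ → ℕ → ℂ} (ha : RegS p a) {N1 N' i : ℕ} (hN : N1 ≤ N')
    (hi : i < N1) {v u : ℕ → ℝ} (hv0 : ∀ j, 0 ≤ v j) (hu0 : ∀ j, 0 ≤ u j)
    (hv : ∑ j ∈ range N1, v j ^ p ≤ 1) (hu : ∑ j ∈ Ico N1 N', u j ^ p ≤ 1) {t : ℝ} (ht : 0 ≤ t) :
    p * (∑ j ∈ range N1, ‖a i j‖ * v j) ^ (p - 1) * (t * ∑ j ∈ Ico N1 N', ‖a i j‖ * u j) ≤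
      1 + t ^ p - ∑ i' ∈ range N1, (∑ j ∈ range N1, ‖a i' j‖ * v j) ^ p := by
  have hp0 : 0 < p := by linarith
  set x : ℕ → ℝ := fun j => if j < N1 then v j else t * u j with hx
  have hx0 : ∀ j, 0 ≤ x j := by
    intro j
    simp only [hx]
    split_ifs
    · exact hv0 j
    · exact mul_nonneg ht (hu0 j)
  have h1 := ha N' x hx0
  have hsplit : ∀ f : ℕ → ℝ, ∑ j ∈ range N', f j = ∑ j ∈ range N1, f j + ∑ j ∈ Ico N1 N', f j :=
    fun f => by
      rw [range_eq_Ico, range_eq_Ico, sum_Ico_consecutive _ (Nat.zero_le _) hN]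
  have hR : ∑ j ∈ range N', x j ^ p ≤ 1 + t ^ p := by
    rw [hsplit]
    have e1 : ∑ j ∈ range N1, x j ^ p = ∑ j ∈ range N1, v j ^ p :=
      sum_congr rfl fun j hj => by simp only [hx]; rw [if_pos (mem_range.1 hj)]
    have e2 : ∑ j ∈ Ico N1 N', x j ^ p = t ^ p * ∑ j ∈ Ico N1 N', u j ^ p := by
      rw [mul_sum]
      refine sum_congr rfl fun j hj => ?_
      simp only [hx]
      rw [if_neg (by have := (mem_Ico.1 hj).1; omega), Real.mul_rpow ht (hu0 j)]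
    rw [e1, e2]
    have h2 : 0 ≤ t ^ p := by positivity
    nlinarith
  have hrow : ∀ i', ∑ j ∈ range N', ‖a i' j‖ * x j = ∑ j ∈ range N1, ‖a i' j‖ * v j +
      t * ∑ j ∈ Ico N1 N', ‖a i' j‖ * u j := by
    intro i'
    rw [hsplit]
    congr 1
    · exact sum_congr rfl fun j hj => by simp only [hx]; rw [if_pos (mem_range.1 hj)]
    · rw [mul_sum]
      refine sum_congr rfl fun j hj => ?_
      simp only [hx]
      rw [if_neg (by have := (mem_Ico.1 hj).1; omega)]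
      ring
  have hA0 : ∀ i', 0 ≤ ∑ j ∈ range N1, ‖a i' j‖ * v j := fun i' =>
    sum_nonneg fun j _ => mul_nonneg (norm_nonneg _) (hv0 j)
  have hB0 : ∀ i', 0 ≤ t * ∑ j ∈ Ico N1 N', ‖a i' j‖ * u j := fun i' =>
    mul_nonneg ht (sum_nonneg fun j _ => mul_nonneg (norm_nonneg _) (hu0 j))
  have hL : ∑ i' ∈ range N1, (∑ j ∈ range N1, ‖a i' j‖ * v j) ^ p +
      p * (∑ j ∈ range N1, ‖a i j‖ * v j) ^ (p - 1) * (t * ∑ j ∈ Ico N1 N', ‖a i j‖ * u j) ≤
      ∑ i' ∈ range N', (∑ j ∈ range N', ‖a i' j‖ * x j) ^ p := by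
    have h3 : ∑ i' ∈ range N1, (∑ j ∈ range N', ‖a i' j‖ * x j) ^ p ≤
        ∑ i' ∈ range N', (∑ j ∈ range N', ‖a i' j‖ * x j) ^ p :=
      sum_le_sum_of_subset_of_nonneg (range_mono hN) fun i' _ _ =>
        Real.rpow_nonneg (sum_nonneg fun j _ => mul_nonneg (norm_nonneg _) (hx0 j)) _
    refine le_trans ?_ h3
    rw [← add_sum_erase _ _ (mem_range.2 hi), ← add_sum_erase (range N1)
      (fun i' => (∑ j ∈ range N', ‖a i' j‖ * x j) ^ p) (mem_range.2 hi)]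
    have h4 : (∑ j ∈ range N1, ‖a i j‖ * v j) ^ p +
        p * (∑ j ∈ range N1, ‖a i j‖ * v j) ^ (p - 1) * (t * ∑ j ∈ Ico N1 N', ‖a i j‖ * u j) ≤
        (∑ j ∈ range N', ‖a i j‖ * x j) ^ p := by
      rw [hrow]
      exact bern hp (hA0 i) (hB0 i)
    have h5 : ∑ i' ∈ (range N1).erase i, (∑ j ∈ range N1, ‖a i' j‖ * v j) ^ p ≤
        ∑ i' ∈ (range N1).erase i, (∑ j ∈ range N', ‖a i' j‖ * x j) ^ p := by
      refine sum_le_sum fun i' _ => ?_
      rw [hrow]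
      exact Real.rpow_le_rpow (hA0 i') (le_add_of_nonneg_right (hB0 i')) hp0.le
    linarith
  linarith

variable {P : ℝ≥0∞} [hP : Fact (1 ≤ P)]

/-- the tail of a row -/
lemma tail_le (hPt : P ≠ ∞) {T : EP P →L[ℂ] EP P} {N1 i : ℕ} {β : ℝ} (hβ : 0 ≤ β)
    (h : ∀ (N' : ℕ) (u : ℕ → ℝ), N1 ≤ N' → (∀ j, 0 ≤ u j) → ∑ j ∈ Ico N1 N', u j ^ P.toReal ≤ 1 →
      ∑ j ∈ Ico N1 N', ‖ent T i j‖ * u j ≤ β) : ‖((gP P i).comp T).comp (QP P N1)‖ ≤ β := by
  have hp := toReal_pos' hPt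
  refine ContinuousLinearMap.opNorm_le_of_unit_norm hβ fun x hx => ?_
  have hlim : Tendsto (fun N => T ((1 - QP P N) (QP P N1 x)) i) atTop (𝓝 (T (QP P N1 x) i)) := by
    have h1 := (QP_tendsto hPt (QP P N1 x)).const_sub (QP P N1 x)
    rw [sub_zero] at h1
    exact ((gP P i).continuous.tendsto _).comp ((T.continuous.tendsto _).comp h1)
  refine le_of_tendsto hlim.norm ?_
  filter_upwards [eventually_ge_atTop N1] with N hN
  rw [T_one_sub]
  have e1 : ∑ j ∈ range N, ent T i j * (QP P N1 x : EP P) j =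
      ∑ j ∈ Ico N1 N, ent T i j * x j := by
    rw [range_eq_Ico, ← sum_Ico_consecutive _ (Nat.zero_le _) hN]
    have e2 : ∑ j ∈ Ico 0 N1, ent T i j * (QP P N1 x : EP P) j = 0 := by
      refine sum_eq_zero fun j hj => ?_
      rw [QP_apply, if_neg (by have := (mem_Ico.1 hj).2; omega), mul_zero]
    rw [e2, zero_add]
    refine sum_congr rfl fun j hj => ?_
    rw [QP_apply, if_pos (mem_Ico.1 hj).1]
  rw [e1]
  refine ((norm_sum_le _ _).trans (le_of_eq (sum_congr rfl fun j _ => norm_mul _ _))).trans ?_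
  refine h N (fun j => ‖x j‖) hN (fun j => norm_nonneg _) ?_
  have h2 := lp.sum_rpow_le_norm_rpow hp x (Ico N1 N)
  rw [hx, Real.one_rpow] at h2
  exact h2

/-- **Rows through norming vectors.** -/
lemma row_tail_cls (hP1 : 1 < P) (hPt : P ≠ ∞) {T : ℕ → EP P →L[ℂ] EP P}
    (hT : ∀ k, RegS P.toReal (ent (T k))) {T1 : EP P →L[ℂ] EP P}
    (hsot : ∀ x, Tendsto (fun k => T k x) atTop (𝓝 (T1 x))) {N1 i : ℕ} (hi : i < N1) {v : ℕ → ℝ}
    (hv0 : ∀ j, 0 ≤ v j) (hv : ∑ j ∈ range N1, v j ^ P.toReal ≤ 1)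
    (hvn : 1 ≤ ∑ i' ∈ range N1, (∑ j ∈ range N1, ‖ent T1 i' j‖ * v j) ^ P.toReal)
    (hvi : 0 < ∑ j ∈ range N1, ‖ent T1 i j‖ * v j) :
    Tendsto (fun k => ((gP P i).comp (T k)).comp (QP P N1)) atTop (𝓝 0) := by
  have hp := toReal_pos' hPt
  have hp1 := one_lt_toReal hP1 hPt
  set p := P.toReal with hpd
  set c : ℝ := ∑ j ∈ range N1, ‖ent T1 i j‖ * v j with hc
  have hent : ∀ i j, Tendsto (fun k => ent (T k) i j) atTop (𝓝 (ent T1 i j)) := fun i j =>
    ((gP P i).continuous.tendsto _).comp (hsot (eP P j))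
  have hcl : ∀ i', Tendsto (fun k => ∑ j ∈ range N1, ‖ent (T k) i' j‖ * v j) atTop
      (𝓝 (∑ j ∈ range N1, ‖ent T1 i' j‖ * v j)) := fun i' =>
    tendsto_finsetSum _ fun j _ => (hent i' j).norm.mul_const _
  have hSl : Tendsto (fun k => ∑ i' ∈ range N1, (∑ j ∈ range N1, ‖ent (T k) i' j‖ * v j) ^ p) atTop
      (𝓝 (∑ i' ∈ range N1, (∑ j ∈ range N1, ‖ent T1 i' j‖ * v j) ^ p)) :=
    tendsto_finsetSum _ fun i' _ => (hcl i').rpow_const (Or.inr hp.le)
  rw [Metric.tendsto_atTop']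
  intro ε hε
  set κ : ℝ := p * (c / 2) ^ (p - 1) with hκ
  have hκ0 : 0 < κ := by positivity
  set t : ℝ := (κ * (ε / 4)) ^ (1 / (p - 1)) with ht
  have ht0 : 0 < t := by positivity
  have htp : t ^ p = t * (κ * (ε / 4)) := by
    have h1 : t ^ (p - 1) = κ * (ε / 4) := by
      rw [ht, ← Real.rpow_mul (by positivity), one_div, inv_mul_cancel₀ (by linarith),
        Real.rpow_one]
    have h2 : t ^ p = t ^ (p - 1) * t := by
      rw [← Real.rpow_add_one ht0.ne']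
      congr 1
      ring
    rw [h2, h1, mul_comm]
  have hev1 : ∀ᶠ k in atTop, c / 2 < ∑ j ∈ range N1, ‖ent (T k) i j‖ * v j :=
    (hcl i).eventually (lt_mem_nhds (by linarith))
  have hev2 : ∀ᶠ k in atTop, 1 - t * (κ * (ε / 4)) <
      ∑ i' ∈ range N1, (∑ j ∈ range N1, ‖ent (T k) i' j‖ * v j) ^ p :=
    hSl.eventually (lt_mem_nhds (by
      have : 0 < t * (κ * (ε / 4)) := by positivity
      linarith))
  obtain ⟨L, hL⟩ := eventually_atTop.1 (hev1.and hev2)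
  refine ⟨L, fun k hk => ?_⟩
  obtain ⟨h1, h2⟩ := hL k hk.le
  rw [dist_zero_right]
  refine lt_of_le_of_lt (tail_le hPt (β := ε / 2) (by positivity) ?_) (by linarith)
  intro N' u hN' hu0 hu
  have h3 := row_ineq hp1 (hT k) hN' hi hv0 hu0 hv hu ht0.le
  rw [htp] at h3
  set β := ∑ j ∈ Ico N1 N', ‖ent (T k) i j‖ * u j with hβ
  have hβ0 : 0 ≤ β := sum_nonneg fun j _ => mul_nonneg (norm_nonneg _) (hu0 j)
  have h4 : κ ≤ p * (∑ j ∈ range N1, ‖ent (T k) i j‖ * v j) ^ (p - 1) := by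
    rw [hκ]
    refine mul_le_mul_of_nonneg_left ?_ hp.le
    exact Real.rpow_le_rpow (by positivity) h1.le (by linarith)
  have h5 : κ * (t * β) ≤ κ * (t * (ε / 2)) := by
    refine (mul_le_mul_of_nonneg_right h4 (by positivity)).trans (h3.trans ?_)
    have : κ * (t * (ε / 2)) = t * (κ * (ε / 4)) + t * (κ * (ε / 4)) := by ring
    linarith
  exact le_of_mul_le_mul_left (le_of_mul_le_mul_left h5 hκ0) ht0

lemma row_cls (hP1 : 1 < P) (hPt : P ≠ ∞) {T : ℕ → EP P →L[ℂ] EP P}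
    (hT : ∀ k, RegS P.toReal (ent (T k))) {T1 : EP P →L[ℂ] EP P} (hT1 : RegS P.toReal (ent T1))
    (hsot : ∀ x, Tendsto (fun k => T k x) atTop (𝓝 (T1 x))) {N1 i : ℕ} (hi : i < N1) {v : ℕ → ℝ}
    (hv0 : ∀ j, 0 ≤ v j) (hv : ∑ j ∈ range N1, v j ^ P.toReal ≤ 1)
    (hvn : 1 ≤ ∑ i' ∈ range N1, (∑ j ∈ range N1, ‖ent T1 i' j‖ * v j) ^ P.toReal)
    (hvi : 0 < ∑ j ∈ range N1, ‖ent T1 i j‖ * v j) :
    Tendsto (fun k => (gP P i).comp (T k)) atTop (𝓝 ((gP P i).comp T1)) := by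
  have h1 := row_tail_cls hP1 hPt hT hsot hi hv0 hv hvn hvi
  have h2 : ((gP P i).comp T1).comp (QP P N1) = 0 := by
    have := row_tail_cls hP1 hPt (T := fun _ => T1) (fun _ => hT1) (T1 := T1)
      (fun x => tendsto_const_nhds) hi hv0 hv hvn hvi
    exact tendsto_nhds_unique tendsto_const_nhds this
  have h3 : Tendsto (fun k => ((gP P i).comp (T k)).comp (1 - QP P N1)) atTop
      (𝓝 (((gP P i).comp T1).comp (1 - QP P N1))) :=
    comp_one_sub_tendsto (f := fun k => (gP P i).comp (T k)) (f1 := (gP P i).comp T1)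
      (fun j => ((gP P i).continuous.tendsto _).comp (hsot (eP P j))) N1
  have h4 := h3.add h1
  have e : ∀ f : StrongDual ℂ (EP P), f.comp (1 - QP P N1) + f.comp (QP P N1) = f := by
    intro f
    ext x
    simp
  rw [← h2] at h4
  simpa only [e] using h4

end Run7.h667.PC
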